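import Pool.Agent.Y190.PH.Cur

/-!
From linear degree bounds to boundedness modulo a proper closed subset.
-/

set_option autoImplicit false

set_option linter.unusedSectionVars false

open FF Pool.Agent.W603.LV Pool.Agent.W603.PV Pool.Agent.W602.GT Pool.Agent.Y190.BV
  Pool.Agent.Y190.GN Pool.Agent.TH145.MW Pool.Agent.Y190.QP Pool.Agent.Y190.AH

namespace Pool.Agent.Y190.PH

/-- a finite set of places containing all the places off an affine curve -/
theorem exists_places {B : Type} [CommRing B] [IsDedekindDomain B] [Algebra ℂ B]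
    [Algebra.FiniteType ℂ B] [IsFF ℂ (FractionRing B)] : ∃ S : Finset (Place ℂ (FractionRing B)),
      ∀ P ∉ S, ∀ b : B, Ge P 0 (algebraMap B (FractionRing B) b) := by
  classical
  obtain ⟨s, hs⟩ := (inferInstance : Algebra.FiniteType ℂ B).out
  obtain ⟨T, hT⟩ := exists_supp (k := ℂ) s (fun b => algebraMap B (FractionRing B) b)
  refine ⟨T, fun P hP b => ?_⟩
  have hb : b ∈ Algebra.adjoin ℂ (s : Set B) := by rw [hs]; exact Algebra.mem_top
  induction hb using Algebra.adjoin_induction with
  | mem x hx =>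
    right
    by_contra hcon
    push Not at hcon
    exact hP (hT x hx P (by omega))
  | algebraMap c =>
    rw [← IsScalarTower.algebraMap_apply]
    exact Ge.const c
  | add x y _ _ hx hy =>
    rw [map_add]
    exact hx.add hy
  | mul x y _ _ hx hy =>
    rw [map_mul]
    have h := hx.mul hy
    rwa [add_zero] at h

section

variable {k : Type} [Field k] [IsAlgClosed k] [CharZero k] {L : Type} [Field L] [Algebra k L]
  [IsFF k L] {N : ℕ}

theorem neg_ord_le (f : L) (P : Place k L) : -P.ord f ≤ hgt k f := by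
  classical
  obtain ⟨T, hT⟩ := exists_supp (k := k) (Finset.univ : Finset (Fin 1)) ![f]
  have h1 : ∀ P : Place k L, P.ord f ≠ 0 → P ∈ T := fun P => hT 0 (Finset.mem_univ _) P
  rw [hgt_finset f T h1]
  by_cases hP : P ∈ T
  · refine (le_max_left _ 0).trans ?_
    exact Finset.single_le_sum (f := fun P : Place k L => max (-P.ord f) 0)
      (fun _ _ => le_max_right _ _) hP
  · have h2 : P.ord f = 0 := by
      by_contra h
      exact hP (h1 P h)
    rw [h2, neg_zero]
    exact Finset.sum_nonneg fun _ _ => le_max_right _ _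

theorem ord_le (f : L) (P : Place k L) : P.ord f ≤ hgt k f := by
  by_cases hf : f = 0
  · rw [hf, P.ord_zero]
    exact hgt_nonneg _
  have h1 := neg_ord_le (k := k) f⁻¹ P
  rw [hgt_inv, P.ord_inv, neg_neg] at h1
  exact h1

end

section

variable {N : ℕ} {K : Type} [Field K] [Algebra ℂ K]

/-- the functions `y_i / y_j` -/
def gen {U : Set (Fin (N + 1))} (y : Fin (N + 1) → K) (i : Fin (N + 1)) {j : Fin (N + 1)}
    (hj : j ∈ U) : CoordRing U y :=
  ⟨y i / y j, Algebra.subset_adjoin ⟨i, j, hj, rfl⟩⟩

theorem gen_aeval {U : Set (Fin (N + 1))} (y : Fin (N + 1) → K) {j : Fin (N + 1)} (hj : j ∈ U)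
    (G : MvPolynomial (Fin (N + 1)) ℂ) :
    ((MvPolynomial.aeval (fun i => gen y i hj) G : CoordRing U y) : K) =
      val (fun i => (y j)⁻¹ * y i) G := by
  have h : (CoordRing U y).val.comp (MvPolynomial.aeval (fun i => gen y i hj)) =
      MvPolynomial.aeval (fun i => (y j)⁻¹ * y i) := by
    apply MvPolynomial.algHom_ext
    intro i
    rw [AlgHom.comp_apply, MvPolynomial.aeval_X, MvPolynomial.aeval_X]
    change y i / y j = _
    rw [div_eq_mul_inv, mul_comm]
  unfold val
  rw [← h]
  rfl

/-- **From degree bounds to boundedness.** -/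
theorem bounded_of_lin {U : Set (Fin (N + 1))} (hU : U.Nonempty) {y : Fin (N + 1) → K}
    (hyU : ∀ j ∈ U, y j ≠ 0) (h : LinB ℂ U y) :
    ∃ J : Ideal (CoordRing U y), J ≠ ⊥ ∧ Pool.Agent.Y193.BoundedModulo (CoordRing U y) J := by
  classical
  obtain ⟨j0, hj0⟩ := hU
  obtain ⟨G, hG, hGy, B0, hB0⟩ := h
  obtain ⟨g, hg⟩ : ∃ g : CoordRing U y, g = MvPolynomial.aeval (fun i => gen y i hj0) G :=
    ⟨_, rfl⟩
  have hyj0 : (y j0)⁻¹ ≠ 0 := inv_ne_zero (hyU j0 hj0)
  have hform : ∀ G' : MvPolynomial (Fin (N + 1)) ℂ, IsForm G' →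
      ((MvPolynomial.aeval (fun i => gen y i hj0) G' : CoordRing U y) = 0 ↔ val y G' = 0) := by
    rintro G' ⟨d, hd⟩
    rw [← Subtype.coe_inj, gen_aeval, val_smul hd]
    change _ = (0 : K) ↔ _
    rw [mul_eq_zero]
    exact ⟨fun h => h.resolve_left (pow_ne_zero _ hyj0), fun h => Or.inr h⟩
  have hg0 : g ≠ 0 := by
    rw [hg]
    exact fun h0 => hGy ((hform G hG).1 h0)
  refine ⟨Ideal.span {g}, fun h0 => hg0 (Ideal.span_singleton_eq_bot.1 h0), ?_⟩
  intro B _ _ _ _ a
  by_cases hB : IsField B
  · have h1 : Module.Finite ℂ B := by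
      let := hB.toField
      exact finite_of_finite_type_of_isJacobsonRing ℂ B
    infer_instance
  have hFF := isFF_frac hB
  obtain ⟨S, hS⟩ := exists_places (B := B)
  obtain ⟨C, hC⟩ : ∃ C : ℤ, C = B0 * max (canDeg ℂ (FractionRing B) + S.card) 0 := ⟨_, rfl⟩
  have hC0 : 0 ≤ C := by
    rw [hC]
    exact mul_nonneg (by positivity) (le_max_right _ _)
  let ι : B →ₐ[ℂ] FractionRing B := IsScalarTower.toAlgHom ℂ B (FractionRing B)
  have hι : Function.Injective ι := IsFractionRing.injective B (FractionRing B)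
  have hSι : ∀ P ∉ S, ∀ b : B, Ge P 0 (ι b) := hS
  have key : ∀ φ : CoordRing U y →ₐ[ℂ] B, ¬ Ideal.span {g} ≤ RingHom.ker φ →
      ∀ (i j : Fin (N + 1)) (hj : j ∈ U) (P : Place ℂ (FractionRing B)),
        Ge P (-C) (ι (φ (gen y i hj))) := by
    intro φ hφ i j hj P
    let f : Fin (N + 1) → FractionRing B := fun i => ι (φ (gen y i hj0))
    have hval : ∀ G' : MvPolynomial (Fin (N + 1)) ℂ,
        val f G' = ι (φ (MvPolynomial.aeval (fun i => gen y i hj0) G')) := by
      intro G'
      have h1 : (ι.comp φ).comp (MvPolynomial.aeval (fun i => gen y i hj0)) =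
          MvPolynomial.aeval f := by
        apply MvPolynomial.algHom_ext
        intro i
        rw [AlgHom.comp_apply, MvPolynomial.aeval_X, MvPolynomial.aeval_X]
        rfl
      unfold val
      rw [← h1]
      rfl
    have hmul : ∀ (j : Fin (N + 1)) (hj : j ∈ U), f j * ι (φ (gen y j0 hj)) = 1 := by
      intro j hj
      have h1 : gen y j hj0 * gen y j0 hj = 1 := by
        apply Subtype.ext
        change y j / y j0 * (y j0 / y j) = 1
        have := hyU j hj
        have := hyU j0 hj0
        field_simp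
      simp only [f]
      rw [← map_mul, ← map_mul, h1, map_one, map_one]
    have hfj0 : f j0 = 1 := by
      have h1 : gen y j0 hj0 = 1 := by
        apply Subtype.ext
        change y j0 / y j0 = 1
        exact div_self (hyU j0 hj0)
      simp only [f]
      rw [h1, map_one, map_one]
    have hfj : ∀ j ∈ U, f j ≠ 0 := fun j hj h0 => by
      have h1 := hmul j hj
      rw [h0, zero_mul] at h1
      exact zero_ne_one h1
    have hmap : MapX U (van (k := ℂ) y) S f := by
      refine ⟨⟨j0, hfj j0 hj0⟩, fun e => ?_, fun j hj => ⟨hfj j hj, fun P hP => ?_⟩⟩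
      · have h1 : (MvPolynomial.aeval (fun i => gen y i hj0) (van (k := ℂ) y e) :
            CoordRing U y) = 0 := (hform e.1 e.2.1).2 e.2.2
        rw [hval, h1, map_zero, map_zero]
      · have h1 := hmul j hj
        have h2 : ι (φ (gen y j0 hj)) ≠ 0 := fun h0 => by
          rw [h0, mul_zero] at h1
          exact zero_ne_one h1
        have h3 := congrArg P.ord h1
        rw [P.ord_mul (hfj j hj) h2, P.ord_one] at h3
        have h4 := (hSι P hP (φ (gen y j hj0))).resolve_left (hfj j hj)
        have h5 := (hSι P hP (φ (gen y j0 hj))).resolve_left h2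
        have h6 : P.ord (f j) = 0 := by
          change 0 ≤ P.ord (f j) at h4
          omega
        obtain ⟨l, hl, hlo⟩ := exists_pord P ⟨j0, hfj j0 hj0⟩
        have h7 := (hSι P hP (φ (gen y l hj0))).resolve_left hl
        change 0 ≤ P.ord (f l) at h7
        have h8 := pord_le P (hfj j0 hj0)
        rw [hfj0, P.ord_one] at h8
        omega
    have hfG : val f G ≠ 0 := by
      rw [hval, ← hg]
      intro h0
      apply hφ
      rw [Ideal.span_singleton_le_iff_mem, RingHom.mem_ker]
      exact hι (by rw [map_zero]; exact h0)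
    have hpht := hB0 (FractionRing B) S f hmap hfG
    rw [← hC] at hpht
    by_cases hi : f i = 0
    · left
      have h1 : gen y i hj = gen y i hj0 * gen y j0 hj := by
        apply Subtype.ext
        change y i / y j = y i / y j0 * (y j0 / y j)
        have := hyU j hj
        have := hyU j0 hj0
        field_simp
      rw [h1, map_mul, map_mul]
      change f i * _ = 0
      rw [hi, zero_mul]
    · right
      have h1 : ι (φ (gen y i hj)) = f i / f j := by
        rw [eq_div_iff (hfj j hj)]
        simp only [f]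
        rw [← map_mul, ← map_mul]
        congr 2
        apply Subtype.ext
        change y i / y j * (y j / y j0) = y i / y j0
        have := hyU j hj
        have := hyU j0 hj0
        field_simp
      rw [h1]
      have h2 := Pool.Agent.W603.CX.hgt_le_pht (k := ℂ) f hi (hfj j hj)
      have h3 := neg_ord_le (k := ℂ) (f i / f j) P
      linarith
  -- all the functions
  obtain ⟨C', hC'0, hC'⟩ : ∃ C' : ℤ, 0 ≤ C' ∧ ∀ φ : CoordRing U y →ₐ[ℂ] B,
      ¬ Ideal.span {g} ≤ RingHom.ker φ → ∀ P : Place ℂ (FractionRing B),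
        Ge P (-C') (ι (φ a)) := by
    obtain ⟨a, ha⟩ := a
    induction ha using Algebra.adjoin_induction with
    | mem x hx =>
      obtain ⟨i, j, hj, rfl⟩ := hx
      exact ⟨C, hC0, fun φ hφ P => key φ hφ i j hj P⟩
    | algebraMap c =>
      refine ⟨0, le_rfl, fun φ hφ P => ?_⟩
      have h1 : (⟨algebraMap ℂ K c, Subalgebra.algebraMap_mem _ c⟩ : CoordRing U y) =
          algebraMap ℂ (CoordRing U y) c := rfl
      rw [h1, AlgHom.commutes, AlgHom.commutes, neg_zero]
      exact Ge.const c
    | add x z hx hz ihx ihz =>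
      obtain ⟨C1, hC1, h1⟩ := ihx
      obtain ⟨C2, hC2, h2⟩ := ihz
      refine ⟨max C1 C2, le_max_of_le_left hC1, fun φ hφ P => ?_⟩
      have h3 : (⟨x + z, Subalgebra.add_mem _ hx hz⟩ : CoordRing U y) = ⟨x, hx⟩ + ⟨z, hz⟩ := rfl
      rw [h3, map_add, map_add]
      exact ((h1 φ hφ P).mono (neg_le_neg (le_max_left _ _))).add
        ((h2 φ hφ P).mono (neg_le_neg (le_max_right _ _)))
    | mul x z hx hz ihx ihz =>
      obtain ⟨C1, hC1, h1⟩ := ihx
      obtain ⟨C2, hC2, h2⟩ := ihz
      refine ⟨C1 + C2, by omega, fun φ hφ P => ?_⟩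
      have h3 : (⟨x * z, Subalgebra.mul_mem _ hx hz⟩ : CoordRing U y) = ⟨x, hx⟩ * ⟨z, hz⟩ := rfl
      rw [h3, map_mul, map_mul]
      have h4 := (h1 φ hφ P).mul (h2 φ hφ P)
      rwa [← neg_add] at h4
  -- a Riemann-Roch space
  let D : Place ℂ (FractionRing B) →₀ ℤ := Finsupp.onFinset S
    (fun P => if P ∈ S then C' else 0) (fun P hP => by
      by_contra hcon
      exact hP (if_neg hcon))
  have hle : Submodule.span ℂ {b : B | ∃ φ : CoordRing U y →ₐ[ℂ] B,
      ¬ Ideal.span {g} ≤ RingHom.ker φ ∧ φ a = b} ≤ (LL D).comap ι.toLinearMap := by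
    rw [Submodule.span_le]
    rintro b ⟨φ, hφ, rfl⟩
    change ι (φ a) = 0 ∨ ∀ P : Place ℂ (FractionRing B), - D P ≤ P.ord (ι (φ a))
    by_cases h0 : ι (φ a) = 0
    · exact Or.inl h0
    · right
      intro P
      change -(if P ∈ S then C' else 0) ≤ _
      by_cases hP : P ∈ S
      · rw [if_pos hP]
        exact (hC' φ hφ P).resolve_left h0
      · rw [if_neg hP, neg_zero]
        exact (hSι P hP (φ a)).resolve_left h0
  have hfd : FiniteDimensional ℂ ((LL D).comap ι.toLinearMap) := by
    let r : ((LL D).comap ι.toLinearMap) →ₗ[ℂ] LL D := ι.toLinearMap.restrict fun x hx => hx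
    refine FiniteDimensional.of_injective r ?_
    intro u v huv
    apply Subtype.ext
    apply hι
    exact congrArg Subtype.val huv
  exact Submodule.finiteDimensional_of_le hle

end

end Pool.Agent.Y190.PH
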