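import Pool.Agent.Y190.PH.Clo
import Pool.Agent.TH182.TC.Core

/-!
Maps from complex tori, entire curves, algebraic curves and lines.
-/

set_option autoImplicit false

set_option linter.unusedSectionVars false

open Filter Topology Set Metric

namespace Pool.Agent.Y190.PH

open FF Pool.Agent.W603.LV Pool.Agent.W603.PV Pool.Agent.W602.GT Pool.Agent.Y190.BV
  Pool.Agent.Y190.GN Pool.Agent.TH145.MW Pool.Agent.Y190.QP Pool.Agent.Y190.AH
  Pool.Agent.W603.BP Pool.Agent.W601.PH Pool.Agent.Y190.AN Pool.Agent.H159R3.GGLLog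
  Pool.Agent.H159R3.NV Pool.Agent.TH182.TC

variable {N n m : ℕ} {ι : Type}

/-- Essential punctured curves lie in the union of the lines. -/
theorem spP_clo (hm : 2 ≤ m) (hN : 4 * n < N + 1) {a : Fin (N + 1) → ℂ}
    (ha : Function.Injective a) {F : ι → MvPolynomial (Fin (N + 1)) ℂ} (hF : ∀ e, IsForm (F e))
    (hS : AllSimple a n m F) : SpP ∅ F ⊆ SpLine F := by
  have hn : n ≤ N := by omega
  rintro x ⟨hx, h⟩
  rw [pts_eq] at hx
  refine ⟨hx, fun G hG hL => ?_⟩
  rw [val_eq]
  refine h G hG (SP.curve_point fun y hy0 hyU _ hyF hne => ?_)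
  have hs := simple_all (by omega) hn ha hS hy0 hyF
  obtain ⟨t, z, hyz, hz, hzM, htM⟩ :=
    SN.struct_anS hm hn hN ha hy0 (sub_ext (hS.sub hn ha) hy0 hyF) hs hne
  have htr : Transcendental (coords ℂ z) t := fun htalg =>
    htM (Minf_closed (Pool.Agent.Y190.AN.alg_mono hzM htalg))
  refine SP.vanish_str (U := ∅) (j1 := 0) (j2 := 0) ha
    (fun j hj => absurd hj (Set.notMem_empty j)) hF hyU hyF hyz hz htr
    fun b b' hb c c' _ _ => hL b b' ⟨hb.1, fun c c' e => ?_⟩ c c'
  exact line_all (fun c c' hc hc' => (hb.2 c c' hc hc').2.2 e) c c'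

/-- Every holomorphic map from the complex plane to `X = {F = 0}` is constant; such a map is given
by entire functions without common zeros as homogeneous coordinates. -/
def Brody (F : ι → MvPolynomial (Fin (N + 1)) ℂ) : Prop :=
  ∀ f : ℂ → Fin (N + 1) → ℂ, Differentiable ℂ f → (∀ z, f z ≠ 0) →
    (∀ z i, MvPolynomial.eval (f z) (F i) = 0) → ∀ z w, ∃ c : ℂ, f z = c • f w

/-- `X = {F = 0}` is algebraically hyperbolic: the degree of a map from a compact curve of genus `g`
to `X` is at most `B * max (2 * g - 2) 0`. -/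
def AlgHyp (F : ι → MvPolynomial (Fin (N + 1)) ℂ) : Prop :=
  ∃ B : ℕ, ∀ (L : Type) [Field L] [Algebra ℂ L] [IsFF ℂ L] (f : Fin (N + 1) → L), f ≠ 0 →
    (∀ e, val f (F e) = 0) → pht ℂ f ≤ B * max (canDeg ℂ L) 0

/-- `X = {F = 0}` contains no line. -/
def NoLines (F : ι → MvPolynomial (Fin (N + 1)) ℂ) : Prop :=
  ∀ p q : Fin (N + 1) → ℂ, ¬ Line F p q

theorem spLine_empty {F : ι → MvPolynomial (Fin (N + 1)) ℂ} (h : NoLines F) : SpLine F = ∅ := by
  rw [Set.eq_empty_iff_forall_notMem]
  rintro x ⟨-, hx⟩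
  have h1 := hx 1 ⟨0, MvPolynomial.isHomogeneous_one _ _⟩ fun p q hpq => absurd hpq (h p q)
  unfold val at h1
  rw [map_one] at h1
  exact one_ne_zero h1

theorem line_ne {F : ι → MvPolynomial (Fin (N + 1)) ℂ} {p q : Fin (N + 1) → ℂ}
    (h : Line F p q) {c c' : ℂ} (hc : c ≠ 0) : c • p + c' • q ≠ 0 := fun h0 =>
  hc (LinearIndependent.pair_iff.1 h.1 c c' h0).1

/-- a line gives a nonconstant entire curve -/
theorem brody_noLines {F : ι → MvPolynomial (Fin (N + 1)) ℂ} (h : Brody F) : NoLines F := by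
  intro p q hpq
  obtain ⟨i, j, hij⟩ := wedge_of_li hpq.1
  have h1 := h (fun z => p + z • q) (by
    refine (differentiable_const _).add ?_
    exact differentiable_id.smul_const q) (fun z h0 => by
      have := line_ne hpq (c := 1) (c' := z) one_ne_zero
      rw [one_smul] at this
      exact this h0) (fun z e => by
      have h2 := hpq.2 1 z e
      rw [one_smul, val_eq] at h2
      exact h2) 1 0
  obtain ⟨c, hc⟩ := h1
  have h2 := congrFun hc i
  have h3 := congrFun hc j
  simp only [one_smul, zero_smul, add_zero, Pi.add_apply, Pi.smul_apply, smul_eq_mul] at h2 h3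
  apply hij
  have h4 : (p i + q i) * p j = (p j + q j) * p i := by
    rw [h2, h3]; ring
  linear_combination -h4

theorem gm_of_line {F : ι → MvPolynomial (Fin (N + 1)) ℂ} {p q : Fin (N + 1) → ℂ}
    (h : Line F p q) : GmLine ∅ F p q :=
  ⟨h.1, fun c c' hc _ => ⟨line_ne h hc, fun j hj => absurd hj (Set.notMem_empty j),
    fun e => h.2 c c' e⟩⟩

theorem alg_noLines {F : ι → MvPolynomial (Fin (N + 1)) ℂ} (h : AlgHyp F) : NoLines F := by
  intro p q hpq
  obtain ⟨B, hB⟩ := h
  obtain ⟨f, hf, -, hlt⟩ := gm_maps (gm_of_line hpq) (G := 1) (one_ne_zero (α := ℂ))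
    (one_ne_zero (α := ℂ)) (by unfold val; rw [map_one]; exact one_ne_zero) 0
  have h1 := hB (RatFunc ℂ) f (fun h0 => hf.1.elim fun i hi => hi (congrFun h0 i)) hf.2.1
  rw [Pool.Agent.Y216.canDeg_ratFunc] at h1
  norm_num at h1
  omega

/-- **Entire curves, algebraic curves and lines.** -/
theorem hyp_tfae (hm : 2 ≤ m) (hN : 4 * n < N + 1) {a : Fin (N + 1) → ℂ}
    (ha : Function.Injective a) {F : ι → MvPolynomial (Fin (N + 1)) ℂ} (hF : ∀ e, IsForm (F e))
    (hS : AllSimple a n m F) : [Brody F, AlgHyp F, NoLines F].TFAE := by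
  tfae_have 1 → 3 := brody_noLines
  tfae_have 2 → 3 := alg_noLines
  tfae_have 3 → 1 := by
    intro h f hf hf0 hfF z w
    by_contra hcon
    push Not at hcon
    have hcurve : EntireCurve ∅ F f := ⟨hf, fun z => ⟨hf0 z,
      fun j hj => absurd hj (Set.notMem_empty j), fun e => hfF z e⟩, z, w, hcon⟩
    have h1 : f z ∈ SpH ∅ F := ⟨⟨hf0 z, fun j hj => absurd hj (Set.notMem_empty j), fun e =>
      hfF z e⟩, fun G _ hG' => hG' f hcurve z⟩
    have h2 := spP_clo hm hN ha hF hS (spH_sub ∅ F h1)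
    rw [spLine_empty h] at h2
    exact h2
  tfae_have 3 → 2 := by
    intro h
    obtain ⟨A, hA⟩ := bound_clo (m := m) hm hN ha hF hS
    refine ⟨A, fun L _ _ _ f hf0 hf => ?_⟩
    rcases hA L f hf0 hf with h1 | h1
    · exact h1
    · have h2 := h1 1 fun p q hpq => absurd hpq (h p q)
      unfold val at h2
      rw [map_one] at h2
      exact absurd h2 one_ne_zero
  tfae_finish

/-- no maps from elliptic curves -/
theorem elliptic_noLines {F : ι → MvPolynomial (Fin (N + 1)) ℂ} (hF : ∀ e, IsForm (F e))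
    (h : EllipticRigid F) : NoLines F := by
  intro p q hpq
  obtain ⟨i, j, hij⟩ := wedge_of_li hpq.1
  have hev : ∀ t : ℂ, (fun j => (Polynomial.C (p j) + Polynomial.X * Polynomial.C (q j)).eval t) =
      (1 : ℂ) • p + t • q := by
    intro t
    funext j
    simp only [Polynomial.eval_add, Polynomial.eval_mul, Polynomial.eval_C, Polynomial.eval_X,
      Pi.add_apply, Pi.smul_apply, smul_eq_mul, one_mul]
  have h1 := no_rational hF h (fun j => Polynomial.C (p j) + Polynomial.X * Polynomial.C (q j))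
    (fun t => by
      have h2 := line_ne hpq (c := 1) (c' := t) one_ne_zero
      obtain ⟨j, hj⟩ := Function.ne_iff.1 h2
      exact ⟨j, by rw [congrFun (hev t) j]; exact hj⟩) (fun t e => by
      rw [hev, ← val_eq]
      exact hpq.2 1 t e) 0 1 i j
  apply hij
  simp only [Polynomial.eval_add, Polynomial.eval_mul, Polynomial.eval_C, Polynomial.eval_X,
    zero_mul, add_zero, one_mul] at h1
  linear_combination h1

end Pool.Agent.Y190.PH
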