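import Pool.Agent.Y190.PH.Tf

/-!
The closed subsets all of whose points are simple.
-/

set_option autoImplicit false

set_option linter.unusedSectionVars false

open FF Pool.Agent.W603.LV Pool.Agent.W603.PV Pool.Agent.W602.GT Pool.Agent.Y190.BV
  Pool.Agent.Y190.GN Pool.Agent.TH145.MW Pool.Agent.Y190.QP Pool.Agent.Y190.AH

namespace Pool.Agent.Y190.PH

section alg

variable {k : Type} [Field k] [IsAlgClosed k] [CharZero k] {N n m : ℕ} {ι : Type}

/-- All points of the projective variety `X = {F = 0}` are simple: the `m`-th powers of the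
coordinates are the values of a polynomial `H` of degree at most `n` at the nodes `a i`, and `H` is
not divisible by the `m`-th power of a polynomial of degree at least two. -/
def AllSimple (a : Fin (N + 1) → k) (n m : ℕ) (F : ι → MvPolynomial (Fin (N + 1)) k) : Prop :=
  ∀ x ∈ Cone F, ∃ H : Polynomial k, H.natDegree ≤ n ∧ (∀ i, x i ^ m = H.eval (a i)) ∧
    ∀ q : Polynomial k, q ^ m ∣ H → q.natDegree ≤ 1

theorem AllSimple.sub (hn : n ≤ N) {a : Fin (N + 1) → k} (ha : Function.Injective a)
    {F : ι → MvPolynomial (Fin (N + 1)) k} (h : AllSimple a n m F) :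
    Cone F ⊆ Cone (buchi a n m) := by
  rw [cone_buchi ha hn]
  intro x hx
  obtain ⟨H, h1, h2, -⟩ := h x hx
  exact ⟨hx.1, H, h1, h2⟩

theorem sum_eval {R : Type} [CommRing R] (d : ℕ) (c : ℕ → R) (t : R) :
    (∑ l ∈ Finset.range (d + 1), Polynomial.C (c l) * Polynomial.X ^ l).eval t =
      ∑ l ∈ Finset.range (d + 1), c l * t ^ l := by
  rw [Polynomial.eval_finsetSum]
  refine Finset.sum_congr rfl fun l _ => ?_
  rw [Polynomial.eval_mul, Polynomial.eval_C, Polynomial.eval_pow, Polynomial.eval_X]

/-- **Points over extensions are simple.** -/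
theorem simple_all (_hm : 1 ≤ m) (hn : n ≤ N) {a : Fin (N + 1) → k} (ha : Function.Injective a)
    {F : ι → MvPolynomial (Fin (N + 1)) k} (hS : AllSimple a n m F) {M : Type} [Field M]
    [Algebra k M] {y : Fin (N + 1) → M} (hy0 : y ≠ 0) (hy : ∀ e, val y (F e) = 0) :
    SN.Simple m (intp a hn (fun i => y i ^ m)) := by
  classical
  have hyb : ∀ l : Rel a n, val y (buchi a n m l) = 0 := sub_ext (hS.sub hn ha) hy0 hy
  set H := intp a hn (fun i => y i ^ m) with hHd
  have hev : ∀ i, H.eval (algebraMap k M (a i)) = y i ^ m := intp_eval ha hn m hyb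
  have hHdeg : H.natDegree ≤ n := intp_natDegree ha hn _
  intro q hq
  by_contra hdeg
  push Not at hdeg
  obtain ⟨h, hh⟩ := hq
  have hq0 : q ≠ 0 := by
    rintro rfl
    rw [Polynomial.natDegree_zero] at hdeg
    omega
  obtain ⟨i0, hi0⟩ := Function.ne_iff.1 hy0
  have hi0' : y i0 ≠ 0 := hi0
  have hH0 : H ≠ 0 := by
    intro h0
    have h1 := hev i0
    rw [h0, Polynomial.eval_zero] at h1
    exact hi0' (eq_zero_of_pow_eq_zero h1.symm)
  have hh0 : h ≠ 0 := by
    rintro rfl
    rw [mul_zero] at hh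
    exact hH0 hh
  have hdH : H.natDegree = m * q.natDegree + h.natDegree := by
    rw [hh, Polynomial.natDegree_mul (pow_ne_zero _ hq0) hh0, Polynomial.natDegree_pow]
  let σ := Fin (N + 1) ⊕ (Fin (q.natDegree + 1) ⊕ Fin (h.natDegree + 1))
  let z : σ → M := Sum.elim y (Sum.elim (fun l => q.coeff l) (fun l => h.coeff l))
  let P : MvPolynomial σ k := MvPolynomial.X (Sum.inl i0) *
    MvPolynomial.X (Sum.inr (Sum.inl (Fin.last _)))
  obtain ⟨z0, hz0, hrel⟩ := specialise z P (by
    simp only [P, map_mul, MvPolynomial.aeval_X, z, Sum.elim_inl, Sum.elim_inr, Fin.val_last]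
    exact mul_ne_zero hi0' (by
      rw [Polynomial.coeff_natDegree, Ne, Polynomial.leadingCoeff_eq_zero]
      exact hq0))
  simp only [P, map_mul, MvPolynomial.aeval_X] at hz0
  let x : Fin (N + 1) → k := fun i => z0 (Sum.inl i)
  let cq : ℕ → k := fun l => if hl : l < q.natDegree + 1 then z0 (Sum.inr (Sum.inl ⟨l, hl⟩)) else 0
  let ch : ℕ → k := fun l => if hl : l < h.natDegree + 1 then z0 (Sum.inr (Sum.inr ⟨l, hl⟩)) else 0
  let q0 : Polynomial k := ∑ l ∈ Finset.range (q.natDegree + 1), Polynomial.C (cq l) *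
    Polynomial.X ^ l
  let h0 : Polynomial k := ∑ l ∈ Finset.range (h.natDegree + 1), Polynomial.C (ch l) *
    Polynomial.X ^ l
  have hx : x ∈ Cone F := by
    refine ⟨fun h1 => left_ne_zero_of_mul hz0 (congrFun h1 i0), fun e => ?_⟩
    have h1 := hrel (MvPolynomial.rename Sum.inl (F e)) (by
      rw [MvPolynomial.aeval_rename]
      exact hy e)
    rw [MvPolynomial.aeval_rename] at h1
    exact h1
  have hval : ∀ i, q0.eval (a i) ^ m * h0.eval (a i) = x i ^ m := by
    intro i
    let R : MvPolynomial σ k :=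
      (∑ l : Fin (q.natDegree + 1), MvPolynomial.X (Sum.inr (Sum.inl l)) *
        MvPolynomial.C (a i ^ (l : ℕ))) ^ m *
      (∑ l : Fin (h.natDegree + 1), MvPolynomial.X (Sum.inr (Sum.inr l)) *
        MvPolynomial.C (a i ^ (l : ℕ))) - MvPolynomial.X (Sum.inl i) ^ m
    have hR : MvPolynomial.aeval z R = 0 := by
      have h1 := hev i
      rw [hh, Polynomial.eval_mul, Polynomial.eval_pow, Polynomial.eval_eq_sum_range,
        Polynomial.eval_eq_sum_range, Finset.sum_range, Finset.sum_range] at h1
      simp only [R, map_sub, map_mul, map_pow, map_sum, MvPolynomial.aeval_X,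
        MvPolynomial.aeval_C, z, Sum.elim_inl, Sum.elim_inr]
      rw [h1, sub_self]
    have h2 := hrel R hR
    simp only [R, map_sub, map_mul, map_pow, map_sum, MvPolynomial.aeval_X,
      MvPolynomial.aeval_C, Algebra.algebraMap_self, RingHom.id_apply] at h2
    have h3 : q0.eval (a i) = ∑ l : Fin (q.natDegree + 1), z0 (Sum.inr (Sum.inl l)) *
        a i ^ (l : ℕ) := by
      simp only [q0]
      rw [sum_eval, Finset.sum_range]
      refine Finset.sum_congr rfl fun l _ => ?_
      simp only [cq]
      rw [dif_pos l.2]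
    have h4 : h0.eval (a i) = ∑ l : Fin (h.natDegree + 1), z0 (Sum.inr (Sum.inr l)) *
        a i ^ (l : ℕ) := by
      simp only [h0]
      rw [sum_eval, Finset.sum_range]
      refine Finset.sum_congr rfl fun l _ => ?_
      simp only [ch]
      rw [dif_pos l.2]
    rw [h3, h4]
    exact sub_eq_zero.1 h2
  have hq0d : q0.natDegree ≤ q.natDegree := by
    refine Polynomial.natDegree_sum_le_of_forall_le _ _ fun l hl => ?_
    rw [Finset.mem_range] at hl
    refine (Polynomial.natDegree_C_mul_X_pow_le _ _).trans (by omega)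
  have hh0d : h0.natDegree ≤ h.natDegree := by
    refine Polynomial.natDegree_sum_le_of_forall_le _ _ fun l hl => ?_
    rw [Finset.mem_range] at hl
    refine (Polynomial.natDegree_C_mul_X_pow_le _ _).trans (by omega)
  have hcoef : q0.coeff q.natDegree ≠ 0 := by
    simp only [q0, Polynomial.finsetSum_coeff, Polynomial.coeff_C_mul, Polynomial.coeff_X_pow]
    rw [Finset.sum_eq_single q.natDegree]
    · rw [if_pos rfl, mul_one]
      simp only [cq]
      rw [dif_pos (Nat.lt_succ_self _)]
      exact right_ne_zero_of_mul hz0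
    · intro b _ hb
      rw [if_neg hb.symm, mul_zero]
    · intro hc
      exact absurd (Finset.mem_range.2 (Nat.lt_succ_self _)) hc
  have hq0d' : q.natDegree ≤ q0.natDegree := Polynomial.le_natDegree_of_ne_zero hcoef
  obtain ⟨H', hH'd, hH'v, hH's⟩ := hS x hx
  have heq : H' = q0 ^ m * h0 := by
    rw [← sub_eq_zero]
    by_contra hne
    apply hne
    refine Polynomial.eq_zero_of_natDegree_lt_card_of_eval_eq_zero _
      (f := fun i : Fin (N + 1) => a i) ha (fun i => ?_) ?_
    · rw [Polynomial.eval_sub, Polynomial.eval_mul, Polynomial.eval_pow, hval, ← hH'v, sub_self]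
    · rw [Fintype.card_fin]
      have h5 := Polynomial.natDegree_sub_le H' (q0 ^ m * h0)
      have h6 : (q0 ^ m * h0).natDegree ≤ m * q.natDegree + h.natDegree := by
        refine Polynomial.natDegree_mul_le.trans (add_le_add ?_ hh0d)
        refine Polynomial.natDegree_pow_le.trans ?_
        exact Nat.mul_le_mul_left m hq0d
      omega
  have h7 := hH's q0 (by rw [heq]; exact Dvd.intro _ rfl)
  omega

/-- **The degrees of the curves.** -/
theorem bound_clo (hm : 2 ≤ m) (hN : 4 * n < N + 1) {a : Fin (N + 1) → k}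
    (ha : Function.Injective a) {F : ι → MvPolynomial (Fin (N + 1)) k} (hF : ∀ e, IsForm (F e))
    (hS : AllSimple a n m F) : ∃ A : ℕ, ∀ (L : Type) [Field L] [Algebra k L] [IsFF k L]
      (y : Fin (N + 1) → L), y ≠ 0 → (∀ e, val y (F e) = 0) →
        pht k y ≤ A * max (canDeg k L) 0 ∨ ∀ G : MvPolynomial (Fin (N + 1)) k,
          (∀ p q, Line F p q → ∀ c c' : k, val (c • p + c' • q) G = 0) → val y G = 0 := by
  have hn : n ≤ N := by omega
  obtain ⟨A, hA⟩ := proj_boundS (m := m) hm hn hN ha hF
  refine ⟨A, fun L _ _ _ y hy0 hy => ?_⟩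
  have hchL : CharZero L := charZero_of_injective_algebraMap (algebraMap k L).injective
  rcases hA L y hy0 (sub_ext (hS.sub hn ha) hy0 hy) hy
    (simple_all (by omega) hn ha hS hy0 hy) with h | ⟨v, h1, h2⟩
  · exact Or.inl h
  · exact Or.inr fun G hG => mem_closure y v h1 h2 hG

end alg

end Pool.Agent.Y190.PH
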