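import Pool.Agent.Y190.AH.Tf
import Pool.Agent.Y190.SN.Tf

/-!
The height inequality for the curves whose polynomial is simple.
-/

set_option autoImplicit false

set_option linter.unusedSectionVars false

open Polynomial FF Pool.Agent.W603.LV Pool.Agent.W603.PV Pool.Agent.W602.GT Pool.Agent.Y190.BV
  Pool.Agent.Y190.GN Pool.Agent.TH145.MW Pool.Agent.Y190.AH

namespace Pool.Agent.Y190.PH

section

variable {k : Type} [Field k] [IsAlgClosed k] [CharZero k] {L : Type} [Field L] [Algebra k L]
  [IsFF k L] {N n m : ℕ}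

/-- polynomials with a multiple factor at a node -/
theorem rat_nodeS (hm : 2 ≤ m) (hmn : m ≤ n) (hN : 4 * n < N + 1)
    {a : Fin (N + 1) → k} (ha : Function.Injective a) {y : Fin (N + 1) → L} {Q : L[X]}
    (hQ : Q ≠ 0) (hd : Q.natDegree ≤ n - m) (hfree : ∀ p : L[X], Irreducible p → ¬ p ^ m ∣ Q)
    {i0 : Fin (N + 1)}
    (hy : ∀ j, y j ^ m = (algebraMap k L (a j) - algebraMap k L (a i0)) ^ m *
      Q.eval (algebraMap k L (a j))) (i j : Fin (N + 1)) :
    hgt k (y i / y j) ≤ hco n * max (canDeg k L) 0 := by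
  obtain ⟨r, rfl⟩ : ∃ r, N = r + 1 := ⟨N - 1, by omega⟩
  have h00 : (0 : ℤ) ≤ hco n * max (canDeg k L) 0 := by positivity
  have hi0 : y i0 = 0 := by
    have h1 := hy i0
    rw [sub_self, zero_pow (by omega), zero_mul] at h1
    exact pow_eq_zero_iff (by omega) |>.1 h1
  by_cases hi : i = i0
  · rw [hi, hi0, zero_div, hgt_zero]; exact h00
  by_cases hj : j = i0
  · rw [hj, hi0, div_zero, hgt_zero]; exact h00
  have hne : ∀ l, l ≠ i0 → a l - a i0 ≠ 0 := fun l hl => sub_ne_zero.2 fun h => hl (ha h)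
  have hB : hbd (n - m) (canDeg k L) 0 ≤ hco n * max (canDeg k L) 0 := by
    rw [← hbd_eq]
    exact hbd_mono (Nat.sub_le _ _) _
  refine hgt_of_pow (m := m) (by omega) h00 ?_
  have h1 : (y i / y j) ^ m = algebraMap k L (((a i - a i0) / (a j - a i0)) ^ m) *
      (Q.eval (algebraMap k L (a i)) / Q.eval (algebraMap k L (a j))) := by
    rw [div_pow, hy, hy, map_pow, map_div₀, map_sub, map_sub, div_pow, mul_div_mul_comm]
  rw [h1]
  refine (hgt_mul_le _ _).trans ?_
  rw [hgt_const, zero_add]
  refine le_trans ?_ hB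
  refine hgt_bound_lin (q := r + 1) hm (by omega) 0 (fun l => a (i0.succAbove l))
    (ha.comp Fin.succAbove_right_injective) Q hQ hd (fun l => ?_) hfree _ _ (hgt_const _).le
    (hgt_const _).le
  refine ⟨y (i0.succAbove l) / algebraMap k L (a (i0.succAbove l) - a i0), ?_⟩
  have h2 := hne _ (Fin.succAbove_ne i0 l)
  have h3 : algebraMap k L (a (i0.succAbove l) - a i0) ≠ 0 := (_root_.map_ne_zero _).2 h2
  rw [div_pow, hy, ← map_sub]
  field_simp

/-- a simple polynomial with a factor of multiplicity at least `m` -/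
theorem simple_split {K : Type} [Field K] {H : K[X]} (hH : H ≠ 0)
    (hs : SN.Simple m H) : (∀ p : K[X], Irreducible p → ¬ p ^ m ∣ H) ∨
      ∃ (t : K) (Q : K[X]), Q ≠ 0 ∧ H = (X - C t) ^ m * Q ∧
        ∀ p : K[X], Irreducible p → ¬ p ^ m ∣ Q := by
  by_cases hcon : ∀ p : K[X], Irreducible p → ¬ p ^ m ∣ H
  · exact Or.inl hcon
  right
  rcases SN.split_of_simple hH hs with h | ⟨t, e, G, hHG, hme, hem, hGt, hGf⟩
  · exact absurd h hcon
  obtain ⟨Q, hQ⟩ : (X - C t) ^ m ∣ H := (pow_dvd_pow _ hme).trans (Dvd.intro _ hHG.symm)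
  have hQ0 : Q ≠ 0 := by
    rintro rfl
    apply hH
    rw [hQ, mul_zero]
  refine ⟨t, Q, hQ0, hQ, fun p hp hdvd => ?_⟩
  have h1 : ((X - C t) * p) ^ m ∣ H := by
    rw [mul_pow, hQ]
    exact mul_dvd_mul_left _ hdvd
  have h2 := hs _ h1
  rw [natDegree_mul (X_sub_C_ne_zero t) hp.ne_zero, natDegree_X_sub_C] at h2
  have := hp.natDegree_pos
  omega

/-- **The structure of the curves.** -/
theorem dichoS (hm : 2 ≤ m) (hN : 4 * n < N + 1)
    {a : Fin (N + 1) → k} (ha : Function.Injective a) {y : Fin (N + 1) → L} (hy0 : y ≠ 0)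
    {H : L[X]} (hd : H.natDegree ≤ n) (hs : SN.Simple m H)
    (hy : ∀ j, y j ^ m = H.eval (algebraMap k L (a j))) :
    (∀ i j, hgt k (y i / y j) ≤ hco n * max (canDeg k L) 0) ∨
      ∃ (t : L) (z : Fin (N + 1) → L), (∀ i, y i = (algebraMap k L (a i) - t) * z i) ∧
        (∃ i j, i ≠ j ∧ z i ≠ 0 ∧ z j ≠ 0) ∧
        ∀ i j, hgt k (z i / z j) ≤ hco n * max (canDeg k L) 0 := by
  classical
  have hchL : CharZero L := charZero_of_injective_algebraMap (algebraMap k L).injective
  have hH : H ≠ 0 := by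
    rintro rfl
    apply hy0
    funext j
    have h1 := hy j
    rw [eval_zero] at h1
    exact pow_eq_zero_iff (by omega) |>.1 h1
  rcases simple_split hH hs with hfree | ⟨t, Q, hQ0, hHQ, hfQ⟩
  · exact Or.inl (rat_free hm hN ha hH hd hfree hy)
  have hdeg : H.natDegree = m + Q.natDegree := by
    rw [hHQ, natDegree_mul (pow_ne_zero _ (X_sub_C_ne_zero t)) hQ0, natDegree_pow,
      natDegree_X_sub_C, mul_one]
  have hmn : m ≤ n := by omega
  have hQd : Q.natDegree ≤ n - m := by omega
  have hyQ : ∀ j, y j ^ m = (algebraMap k L (a j) - t) ^ m * Q.eval (algebraMap k L (a j)) := by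
    intro j
    rw [hy j, hHQ, eval_mul, eval_pow, eval_sub, eval_X, eval_C]
  by_cases hnode : ∃ i0, t = algebraMap k L (a i0)
  · obtain ⟨i0, rfl⟩ := hnode
    exact Or.inl (rat_nodeS hm hmn hN ha hQ0 hQd hfQ hyQ)
  push Not at hnode
  have hne : ∀ i, algebraMap k L (a i) - t ≠ 0 := fun i => sub_ne_zero.2 (Ne.symm (hnode i))
  have hzQ : ∀ i, (y i / (algebraMap k L (a i) - t)) ^ m = Q.eval (algebraMap k L (a i)) := by
    intro i
    rw [div_pow, hyQ]
    have := pow_ne_zero m (hne i)
    field_simp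
  refine Or.inr ⟨t, fun i => y i / (algebraMap k L (a i) - t), fun i => ?_, ?_, ?_⟩
  · have := hne i
    simp only
    field_simp
  · have hinj : Function.Injective fun i => algebraMap k L (a i) :=
      (algebraMap k L).injective.comp ha
    obtain ⟨i0, hi0⟩ := Function.ne_iff.1 hy0
    have hi0' : y i0 ≠ 0 := hi0
    refine ⟨i0, ?_⟩
    by_contra hcon
    push Not at hcon
    apply hQ0
    refine Polynomial.eq_zero_of_natDegree_lt_card_of_eval_eq_zero' _
      ((Finset.univ.erase i0).image fun i => algebraMap k L (a i)) ?_ ?_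
    · intro x hx
      obtain ⟨i, hi, rfl⟩ := Finset.mem_image.1 hx
      rw [← hzQ, hcon i (Finset.ne_of_mem_erase hi).symm (div_ne_zero hi0' (hne i0)),
        zero_pow (by omega)]
    · rw [Finset.card_image_of_injective _ hinj, Finset.card_erase_of_mem (Finset.mem_univ _),
        Finset.card_univ, Fintype.card_fin]
      omega
  · intro i j
    exact rat_free (y := fun i => y i / (algebraMap k L (a i) - t)) hm hN ha hQ0
      (hQd.trans (Nat.sub_le _ _)) hfQ hzQ i j

/-- **The degrees of the curves in the complement of three coordinate hyperplanes.** -/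
theorem log_boundS (hm : 2 ≤ m) (hn : n ≤ N) (hN : 4 * n < N + 1) {a : Fin (N + 1) → k}
    (ha : Function.Injective a) {y : Fin (N + 1) → L} (hyb : ∀ l : Rel a n, val y (buchi a n m l) = 0)
    (hs : SN.Simple m (intp a hn (fun i => y i ^ m)))
    {j : Fin 3 → Fin (N + 1)} (hj : Function.Injective j) (S : Finset (Place k L))
    (hy : ∀ i, y (j i) ≠ 0 ∧ ∀ P ∉ S, P.ord (y (j i)) = pord P y) :
    pht k y ≤ ((N + 1) * (2 * (8 * (1 + 3 * ((N + 1) * hco n))) + hco n) : ℕ) *
      max (canDeg k L + S.card) 0 := by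
  classical
  have hy0 : y ≠ 0 := fun h => (hy 0).1 (congrFun h _)
  obtain ⟨l, hl⟩ := Function.ne_iff.1 hy0
  have hl' : y l ≠ 0 := hl
  have hM0 : (0 : ℤ) ≤ max (canDeg k L) 0 := le_max_right _ _
  have hMS : max (canDeg k L) 0 ≤ max (canDeg k L + S.card) 0 :=
    max_le_max (by linarith [Nat.cast_nonneg (α := ℤ) S.card]) le_rfl
  obtain ⟨χ, hχ⟩ : ∃ χ, χ = max (canDeg k L + S.card) 0 := ⟨_, rfl⟩
  rw [← hχ] at hMS ⊢
  have hχ0 : 0 ≤ χ := hM0.trans hMS
  have hfin : (∀ i j, hgt k (y i / y j) ≤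
      (2 * (8 * (1 + 3 * ((N + 1) * hco n))) + hco n : ℕ) * χ) →
      pht k y ≤ ((N + 1) * (2 * (8 * (1 + 3 * ((N + 1) * hco n))) + hco n) : ℕ) * χ := by
    intro h
    refine (pht_le (k := k) y hl').trans ((Finset.sum_le_sum fun j _ => h j l).trans ?_)
    rw [Finset.sum_const, Finset.card_univ, Fintype.card_fin, nsmul_eq_mul]
    push_cast
    exact le_of_eq (by ring)
  rcases dichoS (m := m) hm hN ha hy0 (intp_natDegree ha hn _) hs
    (fun j => (intp_eval ha hn m hyb j).symm) with h | ⟨t, z, hyz, hz, hB⟩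
  · refine hfin fun i j => (h i j).trans ?_
    refine (mul_le_mul_of_nonneg_left hMS (by positivity)).trans ?_
    refine mul_le_mul_of_nonneg_right ?_ hχ0
    exact_mod_cast Nat.le_add_left _ _
  · have hzj : ∀ i, z (j i) ≠ 0 ∧ algebraMap k L (a (j i)) - t ≠ 0 := by
      intro i
      have h1 := (hy i).1
      rw [hyz] at h1
      exact ⟨right_ne_zero_of_mul h1, left_ne_zero_of_mul h1⟩
    have hphz : pht k z ≤ ((N + 1) * hco n : ℕ) * χ := by
      refine (pht_le (k := k) z (hzj 0).1).trans ((Finset.sum_le_sum fun i _ =>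
        hB i (j 0)).trans ?_)
      rw [Finset.sum_const, Finset.card_univ, Fintype.card_fin, nsmul_eq_mul]
      push_cast
      have h1 : (hco n : ℤ) * max (canDeg k L) 0 ≤ hco n * χ :=
        mul_le_mul_of_nonneg_left hMS (by positivity)
      have h2 : (0 : ℤ) ≤ (N : ℤ) + 1 := by positivity
      nlinarith
    choose M hM1 hM2 using fun i => meets_card (k := k) (hzj i).1
    have hgt_t : hgt k t ≤ 8 * max (canDeg k L + (S ∪ Finset.univ.biUnion M).card) 0 := by
      refine three_pts (b := fun i => a (j i)) (ha.comp hj) _ ?_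
      intro P hP i
      rw [Finset.mem_union, not_or] at hP
      by_contra hcon
      push Not at hcon
      have hPM : ∀ i, P.ord (z (j i)) = pord P z := by
        intro i
        have h1 := pord_le P (hzj i).1
        by_contra hne
        apply hP.2
        exact Finset.mem_biUnion.2 ⟨i, Finset.mem_univ _, hM1 i P (by omega)⟩
      have hsw : ∀ i, P.ord (algebraMap k L (a (j i)) - t) =
          P.ord (t - algebraMap k L (a (j i))) := by
        intro i
        rw [← P.ord_neg, neg_sub]
      have hyi : ∀ i, P.ord (y (j i)) = P.ord (t - algebraMap k L (a (j i))) + pord P z := by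
        intro i
        rw [hyz, P.ord_mul (hzj i).2 (hzj i).1, hPM, hsw]
      obtain ⟨i', hi'⟩ : ∃ i' : Fin 3, i' ≠ i := exists_ne i
      have h1 := ord_sub_const P (t := t) (b := a (j i)) (b' := a (j i'))
        (fun h => hi' (hj (ha h)).symm) (by
          intro h
          have := (hzj i).2
          rw [← neg_ne_zero, neg_sub] at this
          exact this h) hcon
      have h2 := (hy i).2 P hP.1
      have h3 := (hy i').2 P hP.1
      rw [hyi] at h2 h3
      rw [h1] at h3
      omega
    have hcardM : ((Finset.univ.biUnion M).card : ℤ) ≤ 3 * pht k z := by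
      have h1 : (Finset.univ.biUnion M).card ≤ ∑ i, (M i).card := Finset.card_biUnion_le
      have h2 : ((∑ i, (M i).card : ℕ) : ℤ) ≤ ∑ _i : Fin 3, pht k z := by
        push_cast
        exact Finset.sum_le_sum fun i _ => hM2 i
      rw [Finset.sum_const, Finset.card_univ, Fintype.card_fin, nsmul_eq_mul] at h2
      have h3 : ((Finset.univ.biUnion M).card : ℤ) ≤ ((∑ i, (M i).card : ℕ) : ℤ) := by
        exact_mod_cast h1
      exact h3.trans h2
    have hcard : ((S ∪ Finset.univ.biUnion M).card : ℤ) ≤ S.card + 3 * pht k z := by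
      have h1 : ((S ∪ Finset.univ.biUnion M).card : ℤ) ≤ S.card +
          (Finset.univ.biUnion M).card := by
        exact_mod_cast Finset.card_union_le _ _
      linarith
    have hphz0 : 0 ≤ pht k z := Pool.Agent.Y216.pht_nonneg' (k := k) ⟨_, (hzj 0).1⟩
    have hmax : max (canDeg k L + (S ∪ Finset.univ.biUnion M).card) 0 ≤ χ + 3 * pht k z := by
      refine max_le ?_ (by positivity)
      have h1 : canDeg k L + S.card ≤ χ := by rw [hχ]; exact le_max_left _ _
      linarith
    have ht' : hgt k t ≤ (8 * (1 + 3 * ((N + 1) * hco n)) : ℕ) * χ := by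
      push_cast at hphz ⊢
      nlinarith
    refine hfin fun i j => ?_
    have hsubt : ∀ i, hgt k (algebraMap k L (a i) - t) ≤ hgt k t := by
      intro i
      rw [sub_eq_add_neg]
      refine (hgt_add_le _ _).trans ?_
      rw [hgt_const, zero_add, hgt_neg]
    have h3 : y i / y j = ((algebraMap k L (a i) - t) * (algebraMap k L (a j) - t)⁻¹) *
        (z i / z j) := by
      rw [hyz i, hyz j, ← div_eq_mul_inv, mul_div_mul_comm]
    rw [h3]
    refine (hgt_mul_le _ _).trans ?_
    have h4 := hgt_mul_le (k := k) (algebraMap k L (a i) - t) (algebraMap k L (a j) - t)⁻¹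
    rw [hgt_inv] at h4
    have h5 := hsubt i
    have h6 := hsubt j
    have h7 := hB i j
    have h8 : (hco n : ℤ) * max (canDeg k L) 0 ≤ hco n * χ :=
      mul_le_mul_of_nonneg_left hMS (by positivity)
    push_cast at ht' ⊢
    linarith

end

/-- **The degrees of the curves which are not on lines.** -/
theorem proj_boundS {k : Type} [Field k] [IsAlgClosed k] [CharZero k] {N n m : ℕ} (hm : 2 ≤ m)
    (hn : n ≤ N) (hN : 4 * n < N + 1) {a : Fin (N + 1) → k} (ha : Function.Injective a)
    {ι : Type} {F : ι → MvPolynomial (Fin (N + 1)) k} (hF : ∀ e, IsForm (F e)) :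
    ∃ A : ℕ, ∀ (L : Type) [Field L] [Algebra k L] [IsFF k L] (y : Fin (N + 1) → L), y ≠ 0 →
      (∀ l : Rel a n, val y (buchi a n m l) = 0) → (∀ e, val y (F e) = 0) →
      SN.Simple m (intp a hn (fun i => y i ^ m)) →
        pht k y ≤ A * max (canDeg k L) 0 ∨
        ∃ v : Fin (N + 1) → L, (∃ i j, y i * v j - y j * v i ≠ 0) ∧
          ∀ (c c' : L) (e : ι), val (fun l => c * y l + c' * v l) (F e) = 0 := by
  classical
  obtain ⟨s, hs⟩ := exists_finset_span F
  obtain ⟨A1, hA1⟩ : ∃ A1 : ℕ, A1 = ∑ e ∈ s, bnd a (F e) := ⟨_, rfl⟩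
  refine ⟨(N + 1) * (2 * (A1 * hco n) + hco n), fun L _ _ _ y hy0 hyb hy hsim => ?_⟩
  have hchL : CharZero L := charZero_of_injective_algebraMap (algebraMap k L).injective
  obtain ⟨l, hl⟩ := Function.ne_iff.1 hy0
  have hl' : y l ≠ 0 := hl
  have hM0 : (0 : ℤ) ≤ max (canDeg k L) 0 := le_max_right _ _
  have hfin : (∀ i j, hgt k (y i / y j) ≤ (2 * (A1 * hco n) + hco n : ℕ) * max (canDeg k L) 0) →
      pht k y ≤ ((N + 1) * (2 * (A1 * hco n) + hco n) : ℕ) * max (canDeg k L) 0 := by
    intro h
    refine (pht_le (k := k) y hl').trans ((Finset.sum_le_sum fun j _ => h j l).trans ?_)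
    rw [Finset.sum_const, Finset.card_univ, Fintype.card_fin, nsmul_eq_mul]
    push_cast
    exact le_of_eq (by ring)
  rcases dichoS (m := m) hm hN ha hy0 (intp_natDegree ha hn _) hsim
    (fun j => (intp_eval ha hn m hyb j).symm) with h | ⟨t, z, hyz, hz, hB⟩
  · refine Or.inl (hfin fun i j => (h i j).trans ?_)
    refine mul_le_mul_of_nonneg_right ?_ hM0
    exact_mod_cast Nat.le_add_left _ _
  · by_cases h0 : ∀ e ∈ s, gz a z (F e) = 0
    · refine Or.inr ⟨z, ?_⟩
      have h1 : ∀ e, gz a z (F e) = 0 := fun e => vanish_of_finset hs h0 e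
      obtain ⟨h2, h3⟩ := line_on hF ha hz h1 t
      rw [show y = fun i => (algebraMap k L (a i) - t) * z i from funext hyz]
      exact ⟨h2, h3⟩
    · push Not at h0
      obtain ⟨e, hes, he⟩ := h0
      obtain ⟨i0, j0, -, hi0, -⟩ := hz
      have hz' : gz a (fun i => (z i0)⁻¹ * z i) (F e) ≠ 0 := fun h1 =>
        he (gz_smul (hF e) h1 (inv_ne_zero hi0))
      have hval : val (fun i => (algebraMap k L (a i) - t) * ((z i0)⁻¹ * z i)) (F e) = 0 := by
        obtain ⟨d, hd⟩ := hF e
        have h2 : (fun i => (algebraMap k L (a i) - t) * ((z i0)⁻¹ * z i)) =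
            fun i => (z i0)⁻¹ * y i := by
          funext i
          rw [hyz i]
          ring
        rw [h2, val_smul hd, hy e, mul_zero]
      have ht := root_bound a (F e) (B := hco n * max (canDeg k L) 0) (fun i => by
        rw [mul_comm, ← div_eq_mul_inv]
        exact hB i i0) hz' hval
      have hbA : bnd a (F e) ≤ A1 := by
        rw [hA1]
        exact Finset.single_le_sum (f := fun e => bnd a (F e)) (fun _ _ => Nat.zero_le _) hes
      have ht' : hgt k t ≤ (A1 * hco n : ℕ) * max (canDeg k L) 0 := by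
        refine ht.trans ?_
        push_cast
        rw [mul_assoc]
        refine mul_le_mul_of_nonneg_right (by exact_mod_cast hbA) (by positivity)
      refine Or.inl (hfin fun i j => ?_)
      have hsubt : ∀ i, hgt k (algebraMap k L (a i) - t) ≤ hgt k t := by
        intro i
        rw [sub_eq_add_neg]
        refine (hgt_add_le _ _).trans ?_
        rw [hgt_const, zero_add, hgt_neg]
      have h3 : y i / y j = ((algebraMap k L (a i) - t) * (algebraMap k L (a j) - t)⁻¹) *
          (z i / z j) := by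
        rw [hyz i, hyz j, ← div_eq_mul_inv, mul_div_mul_comm]
      rw [h3]
      refine (hgt_mul_le _ _).trans ?_
      have h4 := hgt_mul_le (k := k) (algebraMap k L (a i) - t) (algebraMap k L (a j) - t)⁻¹
      rw [hgt_inv] at h4
      have h5 := hsubt i
      have h6 := hsubt j
      have h7 := hB i j
      push_cast at ht' ⊢
      linarith

end Pool.Agent.Y190.PH
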