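import Pool.Agent.Y190.PH.Tf
import Pool.Agent.Y216.Point
import Pool.Agent.W602.RG.Lnw

/-!
General type and the finiteness of pointed maps.
-/

set_option autoImplicit false

set_option linter.unusedSectionVars false

open FF Pool.Agent.W603.LV Pool.Agent.W603.PV Pool.Agent.W602.GT Pool.Agent.Y190.BV
  Pool.Agent.Y190.GN Pool.Agent.TH145.MW Pool.Agent.Y190.QP Pool.Agent.Y190.AH
  Pool.Agent.W602.RG

namespace Pool.Agent.Y190.PH

variable {k : Type} [Field k] [IsAlgClosed k] [CharZero k] {N n m w : ℕ} {K : Type} [Field K]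
  [Algebra k K]

theorem curve_of_lin {y : Fin (N + 1) → K} (h : LinB k ∅ y) : Pool.Agent.Y216.CurveBound k y := by
  obtain ⟨G, hG, hGy, B, hB⟩ := h
  refine ⟨G, hG, hGy, B, fun L _ _ _ f hf hfG => ?_⟩
  have h1 := hB L ∅ f ⟨hf.1, fun e => hf.2 e.1 e.2.1 e.2.2,
    fun j hj => absurd hj (Set.notMem_empty j)⟩ hfG
  simpa using h1

/-- **General type and pointed maps.** -/
theorem geo_tfae (hm : 2 ≤ m) (hN : 4 * n + (n + 1) ^ 2 < 2 * (N + 1))
    {a : Fin (N + 1) → k} (ha : Function.Injective a)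
    {y : Fin (N + 1) → K} (hy0 : y ≠ 0)
    (hgen : coords k y = ⊤) (hdim : Algebra.trdeg k K = w) {H : Polynomial K}
    (hH : H.natDegree ≤ n) (hy : ∀ i, y i ^ m = H.eval (algebraMap k K (a i)))
    (hs : SN.Simple m H) :
    [GeneralType k K w, PseudoGeomHyp k y, Pool.Agent.Y216.CurveBound k y,
      ¬ Ruled k K].TFAE := by
  have hn : n ≤ N := by nlinarith
  have hinf : Infinite k := inferInstance
  have hF : ∀ e, IsForm (van (k := k) y e) := fun e => e.2.1
  obtain ⟨hsub', hgen2, hs'⟩ := sub_data (U := ∅) hn ha hy0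
    (fun j hj => absurd hj (Set.notMem_empty j)) hH hy hs
  have hsub := hsub'
  have hgen' := hgen2
  have hcone : ConeU ∅ (van (k := k) y) = Cone (van (k := k) y) := by
    ext x
    exact ⟨fun h => ⟨h.1, h.2.2⟩, fun h => ⟨h.1, fun j hj => absurd hj (Set.notMem_empty j), h.2⟩⟩
  rw [hcone] at hsub hgen'
  have hlang := SN.lang_simple hm hn hN ha hF hsub
    (⟨hy0, fun e => e.2.2, hgen, hdim⟩ : SubVar (van (k := k) y) K w y) hs' hgen'
  have hlog := log_tfaeS hm hN ha ∅ hy0 (fun j hj => absurd hj (Set.notMem_empty j)) hgen hdim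
    hH hy hs
  tfae_have 1 ↔ 4 := by
    have h := hlang.out 6 2
    constructor
    · intro h1 h2
      exact (h.2 h2) h1
    · intro h1
      by_contra h2
      exact h1 (h.1 h2)
  tfae_have 4 → 3 := fun h => curve_of_lin ((hlog.out 1 5).2 (Or.inr h))
  tfae_have 3 → 2 := fun h => Pool.Agent.Y216.pointed_of_bound h
  tfae_have 2 → 1 := by
    rintro ⟨G, hG, hGy, hfin⟩
    by_contra hgt
    have hsv : SubVarU ∅ (van (k := k) y) K w y :=
      ⟨hy0, fun j hj => absurd hj (Set.notMem_empty j), fun e => e.2.2, hgen, hdim⟩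
    have hlu := SP.lang_simpleU hm hn hN ha hF hsub' hsv hgen2 hs'
    have hrul : Ruled k K := (hlang.out 6 2).1 hgt
    have hsp : SpL ∅ (van (k := k) y) = ConeU ∅ (van (k := k) y) := by
      by_contra hne
      rcases (hlu.out 2 3).1 hne with h3 | h3
      · rw [Set.ncard_empty] at h3
        omega
      · exact h3 hrul
    obtain ⟨x, hx, hxG⟩ : ∃ x ∈ ConeU ∅ (van (k := k) y), val x G ≠ 0 := by
      by_contra hcon
      push Not at hcon
      exact hGy ((hgen2 G hG).2 hcon)
    rw [← hsp] at hx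
    obtain ⟨p, q, hpq, c, c', hc, hc', hne⟩ : ∃ p q, GmLine ∅ (van (k := k) y) p q ∧
        ∃ c c' : k, c ≠ 0 ∧ c' ≠ 0 ∧ val (c • p + c' • q) G ≠ 0 := by
      by_contra hcon
      push Not at hcon
      exact hxG (hx.2 G hG hcon)
    have hx1 := hpq.2 c c' hc hc'
    have hline : ∀ (t : k) (e : {G : MvPolynomial (Fin (N + 1)) k // IsForm G ∧ val y G = 0}),
        val (c • p + t • q) e.1 = 0 := by
      intro t e
      obtain ⟨Q, hQ1, -⟩ := val_poly (fun i => Polynomial.C (c * p i) +
        Polynomial.X * Polynomial.C (q i)) e.1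
      have hev : ∀ t : k, (fun i => (Polynomial.C (c * p i) +
          Polynomial.X * Polynomial.C (q i)).eval t) = c • p + t • q := by
        intro t
        funext i
        simp only [Polynomial.eval_add, Polynomial.eval_mul, Polynomial.eval_C,
          Polynomial.eval_X, Pi.add_apply, Pi.smul_apply, smul_eq_mul]
      have h0 : Q = 0 := poly_zero fun t ht => by
        rw [hQ1, hev]
        exact (hpq.2 c t hc ht).2.2 e
      have h1 := hQ1 t
      rw [hev, h0, Polynomial.eval_zero] at h1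
      exact h1.symm
    obtain ⟨i, j, hij⟩ := wedge_of_li hpq.1
    obtain ⟨P, hP⟩ := lnw_all k N K y (c • p + c' • q) q hx1.1 ⟨j, i, fun h => hij (by
        simp only [Pi.add_apply, Pi.smul_apply, smul_eq_mul] at h
        have h2 : c * (p i * q j) = c * (p j * q i) := by linear_combination h
        exact mul_left_cancel₀ hc h2)⟩ (fun b G' hG' hyG' => by
        have h2 := hline (c' + b) ⟨G', hG', hyG'⟩
        rw [← h2]
        congr 1
        funext l
        simp only [Pi.add_apply, Pi.smul_apply, smul_eq_mul]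
        ring)
    exact hP (hfin (RatFunc k) P _ ⟨hx1.1, fun G' hG' hyG' => hx1.2.2 ⟨G', hG', hyG'⟩⟩ hne)
  tfae_finish

end Pool.Agent.Y190.PH
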