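import Pool.Agent.Y190.PH.Tf
import Pool.Agent.Y193.Fin

/-!
The coordinate rings of the closed subvarieties of complements of coordinate hyperplanes.
-/

set_option autoImplicit false

set_option linter.unusedSectionVars false

open FF Pool.Agent.W603.LV Pool.Agent.W603.PV Pool.Agent.W602.GT Pool.Agent.Y190.BV
  Pool.Agent.Y190.GN Pool.Agent.TH145.MW Pool.Agent.Y190.QP Pool.Agent.Y190.AH

namespace Pool.Agent.Y190.PH

section ring

variable {N : ℕ} {K : Type} [Field K] [Algebra ℂ K]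

/-- The coordinate ring of the affine variety `V = {x | x_j ≠ 0 for j in U}`, the closed subvariety
with generic point `y` of the complement of hyperplanes: it is generated by the functions
`y_i / y_j` with `j` in `U`. -/
def CoordRing (U : Set (Fin (N + 1))) (y : Fin (N + 1) → K) : Subalgebra ℂ K :=
  Algebra.adjoin ℂ {u | ∃ i, ∃ j ∈ U, u = y i / y j}

/-- the product of the coordinates with index in `U` -/
noncomputable def mon (U : Finset (Fin (N + 1))) {R : Type} [CommRing R] (f : Fin (N + 1) → R) : R :=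
  ∏ j ∈ U, f j

theorem mon_poly (U : Finset (Fin (N + 1))) {R : Type} [CommRing R] [Algebra ℂ R]
    (f : Fin (N + 1) → R) : MvPolynomial.aeval f (mon U (fun j =>
      (MvPolynomial.X j : MvPolynomial (Fin (N + 1)) ℂ))) = mon U f := by
  unfold mon
  rw [map_prod]
  simp

theorem mon_hom (U : Finset (Fin (N + 1))) (e : ℕ) : (mon U (fun j =>
    (MvPolynomial.X j : MvPolynomial (Fin (N + 1)) ℂ)) ^ e).IsHomogeneous (U.card * e) := by
  unfold mon
  refine MvPolynomial.IsHomogeneous.pow ?_ e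
  have h := MvPolynomial.IsHomogeneous.prod U (fun j => (MvPolynomial.X j :
    MvPolynomial (Fin (N + 1)) ℂ)) (fun _ => 1) fun j _ => MvPolynomial.isHomogeneous_X ℂ j
  simpa using h

/-- the elements of the coordinate ring are quotients of forms -/
theorem rep_poly (U : Finset (Fin (N + 1))) (p : MvPolynomial (Fin (N + 1) × {j // j ∈ U}) ℂ) :
    ∃ (e : ℕ) (P : MvPolynomial (Fin (N + 1)) ℂ), P.IsHomogeneous (U.card * e) ∧
      ∀ (R : Type) [CommRing R] [Algebra ℂ R] (f u : Fin (N + 1) → R),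
        (∀ j ∈ U, f j * u j = 1) → MvPolynomial.aeval f P = mon U f ^ e *
          MvPolynomial.aeval (fun s : Fin (N + 1) × {j // j ∈ U} => f s.1 * u s.2) p := by
  classical
  induction p using MvPolynomial.induction_on with
  | C c =>
    refine ⟨0, MvPolynomial.C c, by simpa using MvPolynomial.isHomogeneous_C _ c,
      fun R _ _ f u hu => ?_⟩
    rw [MvPolynomial.aeval_C, MvPolynomial.aeval_C, pow_zero, one_mul]
  | add p q hp hq =>
    obtain ⟨e, P, hP, hPe⟩ := hp
    obtain ⟨e', Q, hQ, hQe⟩ := hq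
    refine ⟨e + e', P * mon U (fun j => MvPolynomial.X j) ^ e' +
      Q * mon U (fun j => MvPolynomial.X j) ^ e, ?_, fun R _ _ f u hu => ?_⟩
    · refine MvPolynomial.IsHomogeneous.add ?_ ?_
      · have h := hP.mul (mon_hom U e')
        rwa [← mul_add] at h
      · have h := hQ.mul (mon_hom U e)
        rw [← mul_add] at h
        rwa [add_comm e e']
    · rw [map_add, map_mul, map_mul, map_pow, map_pow, mon_poly, hPe R f u hu, hQe R f u hu,
        map_add]
      ring
  | mul_X p s hp =>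
    obtain ⟨e, P, hP, hPe⟩ := hp
    obtain ⟨i, j, hj⟩ := s
    refine ⟨e + 1, P * (MvPolynomial.X i * ∏ l ∈ U.erase j, MvPolynomial.X l), ?_,
      fun R _ _ f u hu => ?_⟩
    · have h1 : (∏ l ∈ U.erase j, (MvPolynomial.X l : MvPolynomial (Fin (N + 1)) ℂ)).IsHomogeneous
          (U.card - 1) := by
        have h := MvPolynomial.IsHomogeneous.prod (U.erase j) (fun l => (MvPolynomial.X l :
          MvPolynomial (Fin (N + 1)) ℂ)) (fun _ => 1) fun l _ => MvPolynomial.isHomogeneous_X ℂ l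
        rw [Finset.sum_const, Finset.card_erase_of_mem hj, smul_eq_mul, mul_one] at h
        exact h
      have h2 := hP.mul ((MvPolynomial.isHomogeneous_X ℂ i).mul h1)
      have hc : 0 < U.card := Finset.card_pos.2 ⟨j, hj⟩
      have h3 : U.card * e + (1 + (U.card - 1)) = U.card * (e + 1) := by
        rw [mul_add]
        omega
      rwa [h3] at h2
    · rw [map_mul, map_mul, map_mul, map_prod, hPe R f u hu, MvPolynomial.aeval_X,
        MvPolynomial.aeval_X]
      simp only [MvPolynomial.aeval_X]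
      have h1 : mon U f = f j * ∏ l ∈ U.erase j, f l := (Finset.mul_prod_erase U f hj).symm
      have h2 := hu j hj
      obtain ⟨M, hM⟩ : ∃ M, M = mon U f ^ e := ⟨_, rfl⟩
      rw [pow_succ, ← hM, h1]
      linear_combination (-(M * (MvPolynomial.aeval
        (fun s : Fin (N + 1) × {j // j ∈ U} => f s.1 * u s.2) p) * f i *
          ∏ l ∈ U.erase j, f l)) * h2

theorem mon_unit (U : Finset (Fin (N + 1))) {R : Type} [CommRing R] {f u : Fin (N + 1) → R}
    (hu : ∀ j ∈ U, f j * u j = 1) : IsUnit (mon U f) := by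
  unfold mon
  have h : (∏ j ∈ U, f j) * ∏ j ∈ U, u j = 1 := by
    rw [← Finset.prod_mul_distrib]
    exact Finset.prod_eq_one hu
  exact IsUnit.of_mul_eq_one _ h

/-- the vectors on which the forms that vanish at `y` vanish -/
def OnV (y : Fin (N + 1) → K) {R : Type} [CommRing R] [Algebra ℂ R] (f : Fin (N + 1) → R) : Prop :=
  ∀ G : MvPolynomial (Fin (N + 1)) ℂ, IsForm G → val y G = 0 → MvPolynomial.aeval f G = 0

/-- **Homomorphisms from the coordinate ring.** -/
theorem exists_hom {U : Set (Fin (N + 1))} {y : Fin (N + 1) → K} (hyU : ∀ j ∈ U, y j ≠ 0)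
    {R : Type} [CommRing R] [Algebra ℂ R] {f u : Fin (N + 1) → R} (hf : OnV y f)
    (hu : ∀ j ∈ U, f j * u j = 1) :
    ∃ φ : CoordRing U y →ₐ[ℂ] R, ∀ (i j : Fin (N + 1)), j ∈ U →
      ∀ h : y i / y j ∈ CoordRing U y, φ ⟨y i / y j, h⟩ = f i * u j := by
  classical
  let U' : Finset (Fin (N + 1)) := Finset.univ.filter fun j => j ∈ U
  have hU' : ∀ j, j ∈ U' ↔ j ∈ U := fun j => by simp [U']
  let π : MvPolynomial (Fin (N + 1) × {j // j ∈ U'}) ℂ →ₐ[ℂ] K :=
    MvPolynomial.aeval fun s => y s.1 * (y s.2)⁻¹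
  let ψ : MvPolynomial (Fin (N + 1) × {j // j ∈ U'}) ℂ →ₐ[ℂ] R :=
    MvPolynomial.aeval fun s => f s.1 * u s.2
  have hrange : π.range = CoordRing U y := by
    have h1 : π.range = Algebra.adjoin ℂ (Set.range fun s : Fin (N + 1) × {j // j ∈ U'} =>
        y s.1 * (y s.2)⁻¹) := (Algebra.adjoin_range_eq_range_aeval ℂ _).symm
    rw [h1]
    unfold CoordRing
    congr 1
    ext v
    constructor
    · rintro ⟨⟨i, j, hj⟩, rfl⟩
      exact ⟨i, j, (hU' j).1 hj, (div_eq_mul_inv _ _).symm⟩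
    · rintro ⟨i, j, hj, rfl⟩
      exact ⟨⟨i, j, (hU' j).2 hj⟩, (div_eq_mul_inv _ _).symm⟩
  have hker : ∀ p, π p = 0 → ψ p = 0 := by
    intro p hp
    obtain ⟨e, P, hP, hPe⟩ := rep_poly U' p
    have h1 := hPe K y (fun j => (y j)⁻¹) (fun j hj => mul_inv_cancel₀ (hyU j ((hU' j).1 hj)))
    have h2 : MvPolynomial.aeval (fun s : Fin (N + 1) × {j // j ∈ U'} => y s.1 * (y s.2)⁻¹) p =
        0 := hp
    rw [h2, mul_zero] at h1
    have h3 := hf P ⟨_, hP⟩ h1
    rw [hPe R f u (fun j hj => hu j ((hU' j).1 hj))] at h3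
    have h4 := (mon_unit U' (fun j hj => hu j ((hU' j).1 hj))).pow e
    exact (IsUnit.mul_right_eq_zero h4).1 h3
  let e1 := (Ideal.quotientKerAlgEquivOfSurjective (f := π.rangeRestrict)
    π.rangeRestrict_surjective)
  have hI : ∀ p : MvPolynomial (Fin (N + 1) × {j // j ∈ U'}) ℂ,
      p ∈ RingHom.ker π.rangeRestrict → ψ p = 0 := fun p hp => hker p (by
    have h1 : π.rangeRestrict p = 0 := hp
    exact congrArg Subtype.val h1)
  let φ0 : π.range →ₐ[ℂ] R :=
    (Ideal.Quotient.liftₐ (RingHom.ker π.rangeRestrict) ψ hI).comp e1.symm.toAlgHom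
  have hφ0 : ∀ p, φ0 (π.rangeRestrict p) = ψ p := by
    intro p
    have h1 : e1.symm (π.rangeRestrict p) = Ideal.Quotient.mk _ p := by
      rw [AlgEquiv.symm_apply_eq]
      rfl
    change (Ideal.Quotient.liftₐ (RingHom.ker π.rangeRestrict) ψ hI)
      (e1.symm (π.rangeRestrict p)) = _
    rw [h1]
    rfl
  refine ⟨φ0.comp (Subalgebra.equivOfEq _ _ hrange.symm).toAlgHom, fun i j hj h => ?_⟩
  have h1 : (Subalgebra.equivOfEq _ _ hrange.symm) ⟨y i / y j, h⟩ =
      π.rangeRestrict (MvPolynomial.X ⟨i, j, (hU' j).2 hj⟩) := by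
    apply Subtype.ext
    change y i / y j = π (MvPolynomial.X ⟨i, j, (hU' j).2 hj⟩)
    simp only [π, MvPolynomial.aeval_X]
    exact div_eq_mul_inv _ _
  change φ0 ((Subalgebra.equivOfEq _ _ hrange.symm) ⟨y i / y j, h⟩) = _
  rw [h1, hφ0]
  simp only [ψ, MvPolynomial.aeval_X]

/-- the elements of the coordinate ring are quotients of forms -/
theorem rep_elt {U : Set (Fin (N + 1))} {y : Fin (N + 1) → K} (hyU : ∀ j ∈ U, y j ≠ 0)
    (g : CoordRing U y) : ∃ (U' : Finset (Fin (N + 1))) (e : ℕ) (P : MvPolynomial (Fin (N + 1)) ℂ),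
      (∀ j, j ∈ U' ↔ j ∈ U) ∧ IsForm P ∧ val y P = mon U' y ^ e * (g : K) ∧
      ∀ (R : Type) [CommRing R] [Algebra ℂ R] (f u : Fin (N + 1) → R),
        (∀ j ∈ U, f j * u j = 1) → ∀ φ : CoordRing U y →ₐ[ℂ] R,
        (∀ (i j : Fin (N + 1)), j ∈ U → ∀ h : y i / y j ∈ CoordRing U y,
          φ ⟨y i / y j, h⟩ = f i * u j) → MvPolynomial.aeval f P = mon U' f ^ e * φ g := by
  classical
  let U' : Finset (Fin (N + 1)) := Finset.univ.filter fun j => j ∈ U
  have hU' : ∀ j, j ∈ U' ↔ j ∈ U := fun j => by simp [U']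
  let gen : Fin (N + 1) × {j // j ∈ U'} → CoordRing U y := fun s =>
    ⟨y s.1 / y s.2, Algebra.subset_adjoin ⟨s.1, s.2, (hU' _).1 s.2.2, rfl⟩⟩
  have hgen : Algebra.adjoin ℂ (Set.range gen) = ⊤ := by
    have h1 : Set.range (fun s => ((gen s : CoordRing U y) : K)) =
        {u | ∃ i, ∃ j ∈ U, u = y i / y j} := by
      ext v
      constructor
      · rintro ⟨⟨i, j, hj⟩, rfl⟩
        exact ⟨i, j, (hU' j).1 hj, rfl⟩
      · rintro ⟨i, j, hj, rfl⟩
        exact ⟨⟨i, j, (hU' j).2 hj⟩, rfl⟩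
    rw [eq_top_iff]
    rintro ⟨v, hv⟩ -
    have h2 : (Algebra.adjoin ℂ (Set.range gen)).map (CoordRing U y).val = CoordRing U y := by
      rw [AlgHom.map_adjoin, ← Set.range_comp]
      unfold CoordRing
      congr 1
    have h3 : v ∈ (Algebra.adjoin ℂ (Set.range gen)).map (CoordRing U y).val := by
      rw [h2]
      exact hv
    obtain ⟨v', hv', hvv⟩ := h3
    have h4 : v' = ⟨v, hv⟩ := Subtype.ext hvv
    rw [← h4]
    exact hv'
  have hsurj : Function.Surjective (MvPolynomial.aeval gen :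
      MvPolynomial (Fin (N + 1) × {j // j ∈ U'}) ℂ →ₐ[ℂ] CoordRing U y) := by
    rw [← AlgHom.range_eq_top, ← Algebra.adjoin_range_eq_range_aeval, hgen]
  obtain ⟨p, hp⟩ := hsurj g
  obtain ⟨e, P, hP, hPe⟩ := rep_poly U' p
  refine ⟨U', e, P, hU', ⟨_, hP⟩, ?_, fun R _ _ f u hu φ hφ => ?_⟩
  · have h1 := hPe K y (fun j => (y j)⁻¹) (fun j hj => mul_inv_cancel₀ (hyU j ((hU' j).1 hj)))
    unfold val
    rw [h1, ← hp]
    congr 1
    have h2 : (CoordRing U y).val.comp (MvPolynomial.aeval gen) =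
        MvPolynomial.aeval (fun s : Fin (N + 1) × {j // j ∈ U'} => y s.1 * (y s.2)⁻¹) := by
      apply MvPolynomial.algHom_ext
      intro s
      rw [AlgHom.comp_apply, MvPolynomial.aeval_X, MvPolynomial.aeval_X]
      exact div_eq_mul_inv _ _
    rw [← h2]
    rfl
  · rw [hPe R f u (fun j hj => hu j ((hU' j).1 hj)), ← hp]
    congr 1
    have h2 : φ.comp (MvPolynomial.aeval gen) =
        MvPolynomial.aeval (fun s : Fin (N + 1) × {j // j ∈ U'} => f s.1 * u s.2) := by
      apply MvPolynomial.algHom_ext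
      intro s
      rw [AlgHom.comp_apply, MvPolynomial.aeval_X, MvPolynomial.aeval_X]
      exact hφ _ _ ((hU' _).1 s.2.2) _
    rw [← h2]
    rfl

instance coordRing_fg (U : Set (Fin (N + 1))) (y : Fin (N + 1) → K) :
    Algebra.FiniteType ℂ (CoordRing U y) := by
  have h1 : {u | ∃ i, ∃ j ∈ U, u = y i / y j}.Finite := by
    refine (Set.finite_range (fun s : Fin (N + 1) × Fin (N + 1) => y s.1 / y s.2)).subset ?_
    rintro _ ⟨i, j, -, rfl⟩
    exact ⟨⟨i, j⟩, rfl⟩
  exact (Subalgebra.fg_iff_finiteType _).1 (Subalgebra.fg_def.2 ⟨_, h1, rfl⟩)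

end ring

end Pool.Agent.Y190.PH
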