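import Pool.Agent.Y190.PH.Dic

/-!
The degrees of curves and log general type, for subvarieties of any dimension whose generic point is
simple.
-/

set_option autoImplicit false

set_option linter.unusedSectionVars false

open FF Pool.Agent.W603.LV Pool.Agent.W603.PV Pool.Agent.W602.GT Pool.Agent.Y190.BV
  Pool.Agent.Y190.GN Pool.Agent.TH145.MW Pool.Agent.Y190.QP Pool.Agent.Y190.AH

namespace Pool.Agent.Y190.PH

variable {k : Type} [Field k] [IsAlgClosed k] [CharZero k] {N n m w : ℕ} {K : Type} [Field K]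
  [Algebra k K]

/-- the data of a subvariety -/
theorem sub_data (hn : n ≤ N) {a : Fin (N + 1) → k} (ha : Function.Injective a)
    {U : Set (Fin (N + 1))} {y : Fin (N + 1) → K} (hy0 : y ≠ 0) (hyU : ∀ j ∈ U, y j ≠ 0)
    {H : Polynomial K} (hH : H.natDegree ≤ n)
    (hy : ∀ i, y i ^ m = H.eval (algebraMap k K (a i))) (hs : SN.Simple m H) :
    ConeU U (van (k := k) y) ⊆ Cone (buchi a n m) ∧
    (∀ G : MvPolynomial (Fin (N + 1)) k, IsForm G →
      (val y G = 0 ↔ ∀ x ∈ ConeU U (van (k := k) y), val x G = 0)) ∧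
    SN.Simple m (intp a hn (fun i => y i ^ m)) := by
  refine ⟨?_, fun G hG => ⟨fun h x hx => hx.2.2 ⟨G, hG, h⟩, fun h =>
    val_of_cone hy0 hyU (fun e => e.2.2) h⟩, ?_⟩
  · rintro x ⟨hx0, -, hx⟩
    refine ⟨hx0, fun l => hx ⟨_, isForm_buchi a n m l, ?_⟩⟩
    exact mem_of_poly a n m y H hH (fun i => (hy i).symm) l
  · rw [SN.intp_eq ha hn hH hy]
    exact hs

theorem not_three {U : Set (Fin (N + 1))} {j1 j2 : Fin (N + 1)} (hU : ∀ j ∈ U, j = j1 ∨ j = j2)
    (h3U : 3 ≤ U.ncard) : False := by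
  obtain ⟨jj, hjj, hjU⟩ := (three_iff U).1 h3U
  have h01 : jj 0 ≠ jj 1 := fun h => by simpa using hjj h
  have h02 : jj 0 ≠ jj 2 := fun h => by simpa using hjj h
  have h12 : jj 1 ≠ jj 2 := fun h => by simpa using hjj h
  rcases hU _ (hjU 0) with e0 | e0 <;> rcases hU _ (hjU 1) with e1 | e1 <;>
    rcases hU _ (hjU 2) with e2 | e2 <;> simp_all

/-- **The degrees of the curves.** -/
theorem bound_S (hm : 2 ≤ m) (hn : n ≤ N) (hN : 4 * n < N + 1) {a : Fin (N + 1) → k}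
    (ha : Function.Injective a) (U : Set (Fin (N + 1))) {y : Fin (N + 1) → K} (hy0 : y ≠ 0)
    (hyU : ∀ j ∈ U, y j ≠ 0) (hgen : coords k y = ⊤) (hdim : Algebra.trdeg k K = w)
    {H : Polynomial K} (hH : H.natDegree ≤ n)
    (hy : ∀ i, y i ^ m = H.eval (algebraMap k K (a i))) (hs : SN.Simple m H) :
    ∃ G : MvPolynomial (Fin (N + 1)) k, IsForm G ∧ val y G ≠ 0 ∧ ∃ B : ℕ,
      ∀ (L : Type) [Field L] [Algebra k L] [IsFF k L] (S : Finset (Place k L))
        (f : Fin (N + 1) → L), MapX U (van (k := k) y) S f → val f G ≠ 0 →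
          pht k f ≤ B * max (canDeg k L + S.card) 0 ∨
        (¬ 3 ≤ U.ncard ∧ ∀ G : MvPolynomial (Fin (N + 1)) k,
          (∀ p q, GmLine U (van (k := k) y) p q → ∀ c c' : k, c ≠ 0 → c' ≠ 0 →
            val (c • p + c' • q) G = 0) → val f G = 0) := by
  have hF : ∀ e, IsForm (van (k := k) y e) := fun e => e.2.1
  obtain ⟨hsub, hgen', hs'⟩ := sub_data hn ha hy0 hyU hH hy hs
  have hsv : SubVarU U (van (k := k) y) K w y := ⟨hy0, hyU, fun e => e.2.2, hgen, hdim⟩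
  obtain ⟨Gs, hGs, hGsy, hGsx⟩ :=
    SP.exists_simple_pt (by omega : 1 ≤ m) hn ha hsub hsv hgen' hs'
  obtain ⟨A, hA⟩ := proj_boundS (m := m) hm hn hN ha hF
  refine ⟨Gs, hGs, hGsy, ?_⟩
  rcases U_cases U with ⟨jj, hjj, hjU⟩ | ⟨j1, j2, hU⟩
  · refine ⟨_, fun L _ _ _ S f hf hfG => Or.inl (log_boundS (m := m) hm hn hN ha ?_ ?_ hjj S
      fun i => hf.2.2 _ (hjU i))⟩
    · obtain ⟨h1, h2, h3⟩ := hf
      exact sub_extU hsub (fun h => h1.elim fun i hi => hi (congrFun h i))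
        (fun j hj => (h3 j hj).1) h2
    · obtain ⟨h1, h2, h3⟩ := hf
      exact hGsx L f (fun h => h1.elim fun i hi => hi (congrFun h i))
        (fun j hj => (h3 j hj).1) h2 hfG
  · refine ⟨A, fun L _ _ _ S f hf hfG => ?_⟩
    have hchL : CharZero L := charZero_of_injective_algebraMap (algebraMap k L).injective
    obtain ⟨h1, h2, h3⟩ := hf
    have hf0 : f ≠ 0 := fun h => h1.elim fun i hi => hi (congrFun h i)
    rcases hA L f hf0 (sub_extU hsub hf0 (fun j hj => (h3 j hj).1) h2) h2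
      (hGsx L f hf0 (fun j hj => (h3 j hj).1) h2 hfG) with h | ⟨v, h4, h5⟩
    · refine Or.inl (h.trans (mul_le_mul_of_nonneg_left (max_le_max ?_ le_rfl)
        (by positivity)))
      linarith [Nat.cast_nonneg (α := ℤ) S.card]
    · refine Or.inr ⟨fun h3U => ?_, fun G hG => ?_⟩
      · exact not_three hU h3U
      · exact vanish_gm hU f v (fun j hj => (h3 j hj).1) h4 h5 hG

/-- **Log general type and degrees of curves.** -/
theorem log_tfaeS (hm : 2 ≤ m) (hN : 4 * n + (n + 1) ^ 2 < 2 * (N + 1))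
    {a : Fin (N + 1) → k} (ha : Function.Injective a) (U : Set (Fin (N + 1)))
    {y : Fin (N + 1) → K} (hy0 : y ≠ 0) (hyU : ∀ j ∈ U, y j ≠ 0)
    (hgen : coords k y = ⊤) (hdim : Algebra.trdeg k K = w) {H : Polynomial K}
    (hH : H.natDegree ≤ n) (hy : ∀ i, y i ^ m = H.eval (algebraMap k K (a i)))
    (hs : SN.Simple m H) :
    [LogGeneralType k K w (OffU U y), LinB k U y, EulB k U y, EachB k U y, GmB k U y,
      3 ≤ U.ncard ∨ ¬ Ruled k K].TFAE := by
  have hn : n ≤ N := by nlinarith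
  have hN4 : 4 * n < N + 1 := by nlinarith [sq_nonneg ((n : ℤ) - 1)]
  have hF : ∀ e, IsForm (van (k := k) y e) := fun e => e.2.1
  obtain ⟨hsub, hgen', hs'⟩ := sub_data hn ha hy0 hyU hH hy hs
  have hsv : SubVarU U (van (k := k) y) K w y := ⟨hy0, hyU, fun e => e.2.2, hgen, hdim⟩
  have heq := SP.lang_simpleU hm hn hN ha hF hsub hsv hgen' hs'
  tfae_have 1 ↔ 6 := heq.out 0 3
  tfae_have 1 → 2 := by
    intro h
    have h1 := (heq.out 0 2).1 h
    obtain ⟨x, hx, hxn⟩ : ∃ x ∈ ConeU U (van (k := k) y), x ∉ SpL U (van (k := k) y) := by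
      by_contra hcon
      push Not at hcon
      exact h1 (Set.Subset.antisymm (fun x hx => hx.1) hcon)
    obtain ⟨G, hG, hall, hGx⟩ : ∃ G : MvPolynomial (Fin (N + 1)) k, IsForm G ∧
        (∀ p q, GmLine U (van (k := k) y) p q → ∀ c c' : k, c ≠ 0 → c' ≠ 0 →
          val (c • p + c' • q) G = 0) ∧ val x G ≠ 0 := by
      by_contra hcon
      push Not at hcon
      exact hxn ⟨hx, fun G hG h => hcon G hG h⟩
    obtain ⟨Gs, hGs, hGsy, B, hB⟩ := bound_S hm hn hN4 ha U hy0 hyU hgen hdim hH hy hs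
    have hGy : val y G ≠ 0 := fun h0 => hGx ((hgen' G hG).1 h0 x hx)
    refine ⟨G * Gs, Pool.Agent.Y190.BV.IsForm.mul' hG hGs, ?_, B, fun L _ _ _ S f hf hfG => ?_⟩
    · unfold val at hGy hGsy ⊢
      rw [map_mul]
      exact mul_ne_zero hGy hGsy
    · have hfG' : val f G ≠ 0 ∧ val f Gs ≠ 0 := by
        unfold val at hfG ⊢
        rw [map_mul] at hfG
        exact ⟨left_ne_zero_of_mul hfG, right_ne_zero_of_mul hfG⟩
      rcases hB L S f hf hfG'.2 with h2 | ⟨-, h2⟩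
      · exact h2
      · exact absurd (h2 G hall) hfG'.1
  tfae_have 2 → 3 := fun ⟨G, h1, h2, B, h⟩ => ⟨G, h1, h2, fun m => B * max m 0,
    fun L _ _ _ S f hf hG => h L S f hf hG⟩
  tfae_have 3 → 4 := fun ⟨G, h1, h2, β, h⟩ => ⟨G, h1, h2,
    fun L _ _ _ S => ⟨_, fun f hf hG => h L S f hf hG⟩⟩
  tfae_have 4 → 5 := fun ⟨G, h1, h2, h⟩ => ⟨G, h1, h2, h (RatFunc k) (zeroInf k)⟩
  tfae_have 5 → 1 := by
    rintro ⟨G, hG, hGy, B, hB⟩
    by_contra hgt
    have hsp : SpL U (van (k := k) y) = ConeU U (van (k := k) y) := by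
      by_contra hne
      exact hgt ((heq.out 0 2).2 hne)
    obtain ⟨x, hx, hxG⟩ : ∃ x ∈ ConeU U (van (k := k) y), val x G ≠ 0 := by
      by_contra hcon
      push Not at hcon
      exact hGy ((hgen' G hG).2 hcon)
    rw [← hsp] at hx
    obtain ⟨p, q, hpq, c, c', hc, hc', hne⟩ : ∃ p q, GmLine U (van (k := k) y) p q ∧
        ∃ c c' : k, c ≠ 0 ∧ c' ≠ 0 ∧ val (c • p + c' • q) G ≠ 0 := by
      by_contra hcon
      push Not at hcon
      exact hxG (hx.2 G hG hcon)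
    obtain ⟨f, hf, hfG, hlt⟩ := gm_maps hpq hc hc' hne B
    exact absurd (hB f hf hfG) (not_le.2 hlt)
  tfae_finish

end Pool.Agent.Y190.PH
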